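import Pool.Agent.H12.TG.Space

/-!
# Exponential growth of the defect from one tangent space
-/

open TensorProduct Module MvPolynomial

namespace Pool.Agent.H15.Keep.TangentGrowth

open Pool.Agent.H12.Defect Pool.Agent.H12.TG

universe u

/-- the numerical part -/
theorem real_bound {N d t τ n δ : ℕ} {β : ℝ} (hβ1 : 1 < β) (hβ2 : β ^ 2 ≤ d) (hβ3 : τ * β ≤ d)
    (hd : 0 < d) (hN : 0 < N) (ht : t < N * d) (hn : 1 ≤ n)
    (h : N * d ^ n ≤ t * d ^ (n - 1) + N * d * (1 + τ ^ (n - 1)) * δ + N * (δ * δ)) :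
    β ^ (n - 1) ≤ 4 * N * d * δ := by
  obtain ⟨m, rfl⟩ : ∃ m, n = m + 1 := ⟨n - 1, by omega⟩
  rw [Nat.add_sub_cancel] at h ⊢
  by_contra hlt
  rw [not_le] at hlt
  have hβ0 : 0 ≤ β := by linarith
  have hNR : (1 : ℝ) ≤ N := by exact_mod_cast hN
  have hdR : (1 : ℝ) ≤ d := by exact_mod_cast hd
  have hδR : (0 : ℝ) ≤ δ := Nat.cast_nonneg δ
  have hD : (0 : ℝ) < (d : ℝ) ^ m := by positivity
  have hb1 : 1 ≤ β ^ m := one_le_pow₀ hβ1.le
  have hb2 : β ^ m * β ^ m ≤ (d : ℝ) ^ m := by
    rw [← mul_pow, ← sq]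
    exact pow_le_pow_left₀ (by positivity) hβ2 m
  have hb3 : (τ : ℝ) ^ m * β ^ m ≤ (d : ℝ) ^ m := by
    rw [← mul_pow]
    exact pow_le_pow_left₀ (by positivity) hβ3 m
  have hτ : (0 : ℝ) ≤ (τ : ℝ) ^ m := by positivity
  -- main inequality over the reals
  have h1 : (N : ℝ) * d ^ (m + 1) ≤ t * d ^ m + N * d * (1 + τ ^ m) * δ + N * (δ * δ) := by
    exact_mod_cast h
  have h2 : (t : ℝ) + 1 ≤ N * d := by exact_mod_cast ht
  have h3 : (d : ℝ) ^ m ≤ N * d * (1 + τ ^ m) * δ + N * (δ * δ) := by
    have h4 : ((t : ℝ) + 1) * d ^ m ≤ N * d * d ^ m := mul_le_mul_of_nonneg_right h2 hD.le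
    rw [pow_succ] at h1
    nlinarith
  set b : ℝ := β ^ m with hb
  set D : ℝ := (d : ℝ) ^ m with hD'
  have hNd : (0 : ℝ) ≤ N * d := by positivity
  -- first term
  have h5 : (N : ℝ) * d * δ ≤ b / 4 := by linarith
  have h6 : (N : ℝ) * d * (1 + τ ^ m) * δ ≤ D / 4 + D / 4 := by
    have h7 : b / 4 ≤ D / 4 := by nlinarith
    have h8 : (τ : ℝ) ^ m * (N * d * δ) ≤ D / 4 := by
      calc (τ : ℝ) ^ m * (N * d * δ) ≤ τ ^ m * (b / 4) := mul_le_mul_of_nonneg_left h5 hτ
        _ = (τ ^ m * b) / 4 := by ring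
        _ ≤ D / 4 := by linarith
    calc (N : ℝ) * d * (1 + τ ^ m) * δ = N * d * δ + τ ^ m * (N * d * δ) := by ring
      _ ≤ b / 4 + D / 4 := add_le_add h5 h8
      _ ≤ _ := by linarith
  have h9 : (N : ℝ) * (δ * δ) ≤ D / 16 := by
    have h10 : (N : ℝ) * δ ≤ b / 4 := by
      refine le_trans ?_ h5
      have h11 : (N : ℝ) * δ * 1 ≤ N * δ * d := mul_le_mul_of_nonneg_left hdR (by positivity)
      linarith
    have h12 : (N : ℝ) * δ * (N * δ) ≤ b / 4 * (b / 4) :=
      mul_le_mul h10 h10 (by positivity) (by positivity)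
    have h13 : (N : ℝ) * (δ * δ) * 1 ≤ N * (δ * δ) * N :=
      mul_le_mul_of_nonneg_left hNR (by positivity)
    nlinarith
  linarith

/-- `β = min (√d) (d / τ)`, where `d = dim_k A` and `τ` is the dimension of the annihilator of the
nilradical of `A` -/
noncomputable def rate (k : Type u) [Field k] (A : Type u) [CommRing A] [Algebra k A] : ℝ :=
  min (√(finrank k A)) (finrank k A / finrank k (socle k A))

/-- the inequality `N d^n ≤ t d^(n-1) + N d (1 + τ^(n-1)) δ + N δ²` -/
def MainBound (N d t τ n δ : ℕ) : Prop :=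
  N * d ^ n ≤ t * d ^ (n - 1) + N * d * (1 + τ ^ (n - 1)) * δ + N * δ ^ 2

/-- Let `k` be an algebraically closed field, `S = k[X_1, …, X_N]` and `I` an ideal of `S` such that
`A = S/I` has finite dimension `d`; put `Γ = Spec A ⊆ 𝔸^N`. Let `t = dim_k Hom_S(I, S/I)` be the
dimension of the tangent space of the Hilbert scheme at `Γ`, and `τ` the dimension of the
annihilator of the nilradical of `A`. If `t < N d`, then `β = min (√d) (d / τ) > 1`, and for every
`n ≥ 1` and every `δ = deg Γ' - deg Γ^n` with `Γ'` smoothable containing `Γ^n` we have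
`N d^n ≤ t d^(n-1) + N d (1 + τ^(n-1)) δ + N δ²` and `β^(n-1) ≤ 4 N d δ`. -/
theorem result (k : Type u) [Field k] [IsAlgClosed k] (ι : Type) [Fintype ι]
    (I : Ideal (MvPolynomial ι k)) [FiniteDimensional k (MvPolynomial ι k ⧸ I)]
    (ht : tangentDim I < Fintype.card ι * finrank k (MvPolynomial ι k ⧸ I)) :
    1 < rate k (MvPolynomial ι k ⧸ I) ∧
      ∀ n : ℕ, 1 ≤ n → ∀ δ ∈ defects k (⨂[k] _ : Fin n, MvPolynomial ι k ⧸ I),
        MainBound (Fintype.card ι) (finrank k (MvPolynomial ι k ⧸ I)) (tangentDim I)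
          (finrank k (socle k (MvPolynomial ι k ⧸ I))) n δ ∧
        rate k (MvPolynomial ι k ⧸ I) ^ (n - 1) ≤
          4 * Fintype.card ι * finrank k (MvPolynomial ι k ⧸ I) * δ := by
  set A := MvPolynomial ι k ⧸ I with hA
  have hpos : 0 < Fintype.card ι * finrank k A := (Nat.zero_le _).trans_lt ht
  have hN : 0 < Fintype.card ι := Nat.pos_of_mul_pos_right hpos
  have hd : 0 < finrank k A := Nat.pos_of_mul_pos_left hpos
  have hgen := adjoin_mk I
  have hteq := tangentDim_eq' I
  have hred : ¬ IsReduced A := fun h => by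
    have := le_tangent_of_isReduced _ hgen
    rw [← hteq] at this
    exact absurd ht (not_lt.mpr this)
  have hnt : Nontrivial A := Module.nontrivial_of_finrank_pos hd
  have h1 := socle_lt (k := k) hred
  have h2 := socle_pos (k := k) (A := A)
  have h3 : (1 : ℝ) ≤ finrank k (socle k A) := by exact_mod_cast h2
  have h4 : (finrank k (socle k A) : ℝ) < finrank k A := by exact_mod_cast h1
  have hβ : 1 < rate k A := by
    rw [rate, lt_min_iff]
    constructor
    · rw [Real.lt_sqrt (by norm_num)]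
      linarith
    · rw [lt_div_iff₀ (by linarith)]
      linarith
  refine ⟨hβ, ?_⟩
  intro n hn δ hδ
  have hmain := main_ineq _ hgen hd hn hδ
  rw [← hteq] at hmain
  refine ⟨by rw [MainBound, sq]; exact hmain, ?_⟩
  refine real_bound hβ ?_ ?_ hd hN ht hn hmain
  · calc (rate k A) ^ 2
        ≤ (√(finrank k A)) ^ 2 :=
          pow_le_pow_left₀ (zero_le_one.trans hβ.le) (min_le_left _ _) 2
      _ = finrank k A := Real.sq_sqrt (by positivity)
  · calc (finrank k (socle k A) : ℝ) * (rate k A)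
        ≤ finrank k (socle k A) * ((finrank k A : ℝ) / finrank k (socle k A)) :=
          mul_le_mul_of_nonneg_left (min_le_right _ _) (by positivity)
      _ = finrank k A := by field_simp

end Pool.Agent.H15.Keep.TangentGrowth

/-
Claim text of the former hand-in:

Proves: Let k be algebraically closed, S=k[x_1..x_N], I an ideal of S with A=S/I of finite dimension d, Γ=Spec A, t=dim_k Hom_S(I,S/I), τ=dim of the annihilator of the nilradical of A. If t<Nd, then β=min(√d,d/τ)>1, and for all n≥1 and all smoothable Γ'⊇Γ^n, δ=deg Γ'-deg Γ^n satisfies N d^n ≤ t d^(n-1)+N d(1+τ^(n-1))δ+Nδ² and β^(n-1) ≤ 4Nd δ.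
Definitions: tangentDim I: dim_k Hom_S(I,S/I); socle k A: the annihilator of the nilpotents of A; rate k A: β; MainBound N d t τ n δ: the first inequality; IsSmoothable k B: a finite flat k[[X]]-algebra has geometrically reduced generic fibre and special fibre isomorphic to B over k; defects k A: the set of dim B-dim A over all smoothable B with a surjective k-algebra map B → A.
Relation: Partial, for Q1: whenever the classical tangent-space obstruction to smoothability holds at Γ, that single number forces δ(Γ^n) to grow exponentially in n. This happens already in degree 8: for I=(x_0²-y_0², x_0x_1-y_0y_1, x_1²-y_1², x_p y_q (p,q=0,1)) in 4 variables t≤25<32=Nd and δ(Γ^n) ≥ (8/3)^(n-1)/128 (not in the theorem; proved in Pool/Agent/H12/TG/DegreeEight.lean). It gives lower bounds on δ(Γ^n) only and does not decide Q1.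

-/
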